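import Pool.Agent.TH279.GR.Defs

set_option autoImplicit false

open MvPolynomial Module Filter Topology

namespace Pool.Agent.TH279.GR

namespace TH55

variable {a b : ℕ}

theorem finite_bh' (u v : ℕ) : FiniteDimensional ℂ (bh a b u v) := by
  have hle : bh a b u v ≤ weightedHomogeneousSubmodule ℂ (fun _ : Ix a b => (1 : ℕ)) (u + v) := by
    intro f hf
    unfold bh at hf
    rw [mem_weightedHomogeneousSubmodule] at hf ⊢
    intro d hd
    have h := hf hd
    have h1 : Finsupp.weight (wt a b) d = ∑ i, d i • wt a b i := by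
      rw [Finsupp.weight_apply, Finsupp.sum_fintype _ _ (by simp)]
    have h2 : Finsupp.weight (fun _ : Ix a b => (1 : ℕ)) d = ∑ i, d i • 1 := by
      rw [Finsupp.weight_apply, Finsupp.sum_fintype _ _ (by simp)]
    rw [h1, Fintype.sum_sum_type] at h
    rw [h2, Fintype.sum_sum_type]
    have e1 := congrArg Prod.fst h
    have e2 := congrArg Prod.snd h
    simp [wt, Prod.fst_sum, Prod.snd_sum] at e1 e2
    simp
    omega
  have hfg := weightedHomogeneousSubmodule_fg (R := ℂ) (fun _ : Ix a b => (1 : ℕ))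
    (by simp) (u + v)
  have hfd : FiniteDimensional ℂ
      (weightedHomogeneousSubmodule ℂ (fun _ : Ix a b => (1 : ℕ)) (u + v)) :=
    Module.Finite.iff_fg.mpr hfg
  exact Submodule.finiteDimensional_of_le hle

theorem comp_mul {x g : Co a b} {c e u v : ℕ} (hx : x ∈ bh a b c e) :
    weightedHomogeneousComponent (wt a b) (u + c, v + e) (x * g) =
      x * weightedHomogeneousComponent (wt a b) (u, v) g := by
  classical
  induction g using MvPolynomial.induction_on' with
  | monomial d r =>
    have hm : monomial d r ∈ weightedHomogeneousSubmodule ℂ (wt a b) (Finsupp.weight (wt a b) d) :=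
      isWeightedHomogeneous_monomial _ _ _ rfl
    have hxm : x * monomial d r ∈ weightedHomogeneousSubmodule ℂ (wt a b)
        ((c, e) + Finsupp.weight (wt a b) d) :=
      IsWeightedHomogeneous.mul hx hm
    rw [weightedHomogeneousComponent_of_mem hm, weightedHomogeneousComponent_of_mem hxm]
    by_cases h : ((u, v) : ℕ × ℕ) = Finsupp.weight (wt a b) d
    · rw [if_pos h, if_pos]
      rw [← h]
      ext <;> simp [add_comm]
    · rw [if_neg h, if_neg, mul_zero]
      intro h'
      apply h
      rw [show ((u + c, v + e) : ℕ × ℕ) = (c, e) + (u, v) by ext <;> simp [add_comm]] at h'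
      exact add_left_cancel h'
  | add p q hp hq =>
    rw [mul_add, map_add, map_add, hp, hq, mul_add]

theorem hf_add_pt (I : Ideal (Co a b)) (u v : ℕ) :
    hf I u v + finrank ℂ (pt I u v) = finrank ℂ (bh a b u v) := by
  have := finite_bh' (a := a) (b := b) u v
  set f : Co a b →ₗ[ℂ] Co a b ⧸ I := (Ideal.Quotient.mkₐ ℂ I).toLinearMap with hf_def
  have h := LinearMap.finrank_range_add_finrank_ker (f.domRestrict (bh a b u v))
  have h1 : LinearMap.range (f.domRestrict (bh a b u v)) = (bh a b u v).map f :=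
    LinearMap.range_domRestrict _ _
  have h2 : (LinearMap.ker (f.domRestrict (bh a b u v))).map (bh a b u v).subtype =
      pt I u v := by
    ext g
    simp only [Submodule.mem_map, LinearMap.mem_ker, pt, Submodule.mem_inf,
      Submodule.restrictScalars_mem]
    constructor
    · rintro ⟨y, hy, rfl⟩
      refine ⟨y.2, ?_⟩
      rw [← Ideal.Quotient.eq_zero_iff_mem]
      exact hy
    · rintro ⟨hg, hgI⟩
      refine ⟨⟨g, hg⟩, ?_, rfl⟩
      exact Ideal.Quotient.eq_zero_iff_mem.mpr hgI
  have h3 : finrank ℂ (LinearMap.ker (f.domRestrict (bh a b u v))) = finrank ℂ (pt I u v) := by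
    rw [← h2]
    exact (Submodule.finrank_map_subtype_eq _ _).symm
  rw [h1, h3] at h
  exact h

theorem finrank_map_mul {x : Co a b} (hx : x ≠ 0) (S : Submodule ℂ (Co a b)) :
    finrank ℂ (S.map (LinearMap.mulLeft ℂ x)) = finrank ℂ S :=
  (LinearEquiv.finrank_eq (Submodule.equivMapOfInjective (LinearMap.mulLeft ℂ x)
    (mul_right_injective₀ hx) S)).symm

theorem pt_sup {N' : Ideal (Co a b)} {x : Co a b} {c e : ℕ} (hN : BHom N')
    (hx : x ∈ bh a b c e) (u v : ℕ) :
    pt (N' ⊔ Ideal.span {x}) (u + c) (v + e) =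
      pt N' (u + c) (v + e) ⊔ (bh a b u v).map (LinearMap.mulLeft ℂ x) := by
  apply le_antisymm
  · rintro f ⟨hf, hfI⟩
    have hfI' : f ∈ N' ⊔ Ideal.span {x} := hfI
    obtain ⟨n, hn, y, hy, rfl⟩ := Submodule.mem_sup.mp hfI'
    obtain ⟨g, rfl⟩ := Ideal.mem_span_singleton'.mp hy
    have h1 := weightedHomogeneousComponent_eq_self (w := wt a b) (n := (u + c, v + e))
      (p := n + g * x) hf
    rw [map_add, mul_comm g x, comp_mul hx] at h1
    rw [mul_comm g x, ← h1]
    refine Submodule.add_mem_sup ⟨weightedHomogeneousComponent_mem _ _ _, hN n hn _⟩ ?_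
    exact ⟨_, weightedHomogeneousComponent_mem _ _ _, rfl⟩
  · apply sup_le
    · rintro f ⟨hf, hfI⟩
      exact ⟨hf, Ideal.mem_sup_left hfI⟩
    · rintro _ ⟨g, hg, rfl⟩
      refine ⟨?_, ?_⟩
      · change x * g ∈ bh a b (u + c) (v + e)
        have h := IsWeightedHomogeneous.mul (w := wt a b) (m := (c, e)) (n := (u, v)) hx hg
        rw [show ((c, e) : ℕ × ℕ) + (u, v) = (u + c, v + e) by ext <;> simp [add_comm]] at h
        exact h
      · change x * g ∈ N' ⊔ Ideal.span {x}
        exact Ideal.mem_sup_right (Ideal.mul_mem_right _ _ (Ideal.mem_span_singleton_self x))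

theorem pt_inf {N' : Ideal (Co a b)} {x : Co a b} {c e : ℕ}
    (hx : x ∈ bh a b c e) (u v : ℕ) :
    pt N' (u + c) (v + e) ⊓ (bh a b u v).map (LinearMap.mulLeft ℂ x) =
      (pt (col N' x) u v).map (LinearMap.mulLeft ℂ x) := by
  ext f
  constructor
  · rintro ⟨⟨_, hfI⟩, g, hg, rfl⟩
    exact ⟨g, ⟨hg, hfI⟩, rfl⟩
  · rintro ⟨g, ⟨hg, hgI⟩, rfl⟩
    refine ⟨⟨?_, hgI⟩, g, hg, rfl⟩
    change x * g ∈ bh a b (u + c) (v + e)
    have h := IsWeightedHomogeneous.mul (w := wt a b) (m := (c, e)) (n := (u, v)) hx hg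
    rw [show ((c, e) : ℕ × ℕ) + (u, v) = (u + c, v + e) by ext <;> simp [add_comm]] at h
    exact h

/-- one step of the filtration -/
theorem step_hf {N' N : Ideal (Co a b)} {x : Co a b} {c e : ℕ} (h : Step N' N x c e) (u v : ℕ) :
    hf N' (u + c) (v + e) = hf N (u + c) (v + e) + hf (col N' x) u v := by
  have hx0 : x ≠ 0 := by
    rintro rfl
    apply h.prime.ne_top
    rw [Ideal.eq_top_iff_one, mem_col, zero_mul]
    exact N'.zero_mem
  have i1 := finite_bh' (a := a) (b := b) u v
  have i2 := finite_bh' (a := a) (b := b) (u + c) (v + e)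
  have i3 : FiniteDimensional ℂ (pt N' (u + c) (v + e)) :=
    Submodule.finiteDimensional_of_le (inf_le_left : pt N' (u + c) (v + e) ≤ _)
  have hs := Submodule.finrank_sup_add_finrank_inf_eq (pt N' (u + c) (v + e))
    ((bh a b u v).map (LinearMap.mulLeft ℂ x))
  rw [← pt_sup h.hom h.mem, ← h.eq, pt_inf h.mem, finrank_map_mul hx0, finrank_map_mul hx0] at hs
  have e1 := hf_add_pt N' (u + c) (v + e)
  have e2 := hf_add_pt N (u + c) (v + e)
  have e3 := hf_add_pt (col N' x) u v
  omega

end TH55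

namespace G2

/-- **Hilbert functions along a filtration.** -/
theorem chain_hf {a b : ℕ} {N' N : Ideal (Co a b)} {l : List (Ideal (Co a b) × ℕ × ℕ)}
    (h : Chain N' N l) : ∃ n0 : ℕ, (∀ t ∈ l, t.2.1 ≤ n0 ∧ t.2.2 ≤ n0) ∧
      ∀ u v : ℕ, n0 ≤ u → n0 ≤ v →
      hf N' u v = hf N u v + (l.map fun t => hf t.1 (u - t.2.1) (v - t.2.2)).sum := by
  induction h with
  | nil N h => exact ⟨0, by simp, fun u v _ _ => by simp⟩
  | @cons N' N'' N x c e l hs hc ih =>
    obtain ⟨n0, h1, h2⟩ := ih
    refine ⟨max n0 (max c e), ?_, ?_⟩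
    · intro t ht
      rw [List.mem_cons] at ht
      rcases ht with rfl | ht
      · simp
      · have := h1 t ht
        omega
    · intro u v hu hv
      have h3 := h2 u v (by omega) (by omega)
      have h4 := TH55.step_hf hs (u - c) (v - e)
      rw [show u - c + c = u by omega, show v - e + e = v by omega] at h4
      rw [h4, h3, List.map_cons, List.sum_cons]
      ring

end G2

end Pool.Agent.TH279.GR
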